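import Pool.Agent.QPI.Stmts

set_option autoImplicit false

/-!
# Squad QPI, row B_PDC (helper9): closure properties of `PD`
-/

namespace Pool.Agent.QPI.H9

open Pool.Agent.QPI

theorem b_pdc : PdcStmt := by
  intro S _ g h d d'
  refine ⟨fun hg hh a ha => ?_, fun hg hh a ha => ?_, fun hg a ha => ?_, fun hg a ha => ?_,
    fun hd hg a ha => hg a (lt_of_le_of_lt hd ha), fun a ha => ?_⟩
  · rw [map_add, hg a ha, hh a ha, add_zero]
  · rw [PowerSeries.coeff_mul]
    refine Finset.sum_eq_zero fun p hp => ?_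
    have h1 := Finset.HasAntidiagonal.mem_antidiagonal.1 hp
    by_cases h2 : d < p.1
    · rw [hg _ h2, zero_mul]
    · rw [hh _ (by omega), mul_zero]
  · unfold th
    rw [PowerSeries.coeff_mk, hg a ha, mul_zero]
  · rw [map_neg, hg a ha, neg_zero]
  · rw [PowerSeries.coeff_one, if_neg (by omega)]

end Pool.Agent.QPI.H9
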